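import Pool.Agent.H34.GZ.Targets1

/-!
MP_52e316_nt: row DAV of the board gz_modules, the average of the square of the number of the
intermediate lattices.
-/

namespace Pool.Agent.H86.GZ

open MeasureTheory Pool.Agent.H34.GM Pool.Agent.H34.GZ

theorem tsum_ind {α : Type} {s : Set α} [DecidablePred (· ∈ s)] (hs : s.Finite) :
    ∑' a, (if a ∈ s then (1 : ENNReal) else 0) = s.ncard := by
  classical
  rw [tsum_eq_sum (s := hs.toFinset)]
  · rw [Finset.sum_ite_of_true (fun a ha => hs.mem_toFinset.1 ha), Finset.sum_const,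
      nsmul_eq_mul, mul_one, Set.ncard_eq_toFinset_card s hs]
  · intro a ha
    rw [if_neg]
    intro h
    exact ha (hs.mem_toFinset.2 h)

open Classical in
theorem NL_sq (hI : T_IDX) {m : ℕ} (x : ZM m) (hx : x.det ≠ 0) : (NL x : ENNReal) ^ 2 =
    ∑' p : AddSubgroup (Fin m → ℤ) × AddSubgroup (Fin m → ℤ),
      if (∀ i, x i ∈ p.1) ∧ (∀ i, x i ∈ p.2) then (1 : ENNReal) else 0 := by
  have hf := ((hI m).2.2.2.2 x hx).1
  have h1 : (NL x : ENNReal) =
      ∑' M : AddSubgroup (Fin m → ℤ), if ∀ i, x i ∈ M then (1 : ENNReal) else 0 := by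
    have h2 := tsum_ind (s := {L : AddSubgroup (Fin m → ℤ) | ∀ i, x i ∈ L}) hf
    unfold NL
    rw [show Nat.card {M : AddSubgroup (Fin m → ℤ) // ∀ i, x i ∈ M} =
      ({L : AddSubgroup (Fin m → ℤ) | ∀ i, x i ∈ L}).ncard from Nat.card_coe_set_eq _, ← h2]
    rfl
  obtain ⟨φ, hφ⟩ : ∃ φ : AddSubgroup (Fin m → ℤ) → ENNReal,
      ∀ M, φ M = if ∀ i, x i ∈ M then (1 : ENNReal) else 0 := ⟨_, fun _ => rfl⟩
  have h3 : ∀ p : AddSubgroup (Fin m → ℤ) × AddSubgroup (Fin m → ℤ),
      (if (∀ i, x i ∈ p.1) ∧ (∀ i, x i ∈ p.2) then (1 : ENNReal) else 0) = φ p.1 * φ p.2 := by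
    intro p
    rw [hφ, hφ]
    by_cases a : ∀ i, x i ∈ p.1 <;> by_cases b : ∀ i, x i ∈ p.2 <;> simp [a, b]
  rw [tsum_congr h3, ENNReal.tsum_prod (f := fun M M' => φ M * φ M'), sq]
  simp_rw [ENNReal.tsum_mul_left]
  rw [ENNReal.tsum_mul_right, h1, tsum_congr hφ]

/-- the number of the matrices in a box -/
theorem box_card (hC : T_CNT) {m : ℕ} (b n : Mat m) (a : Fin m → ℝ) (k : Mat m)
    (hs : Sgl b n a k) (w : Fin m → ℝ) (hw : ∀ i, 0 < w i) [DecidablePred (inBox b w)] :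
    ∑' x : ZM m, (if inBox b w x then (1 : ENNReal) else 0) ≤
      ENNReal.ofReal (∏ i, ∏ j, (1 + 2 * w i / a j)) := by
  classical
  obtain ⟨h1, -, -, -⟩ := hC m b n a k hs
  have hf : ∀ i, {c : Fin m → ℤ | rowN (vb c b) ≤ w i}.Finite := fun i => (h1 (w i) (hw i).le).1
  obtain ⟨F, hF⟩ : ∃ F : Fin m → Finset (Fin m → ℤ), F = fun i => (hf i).toFinset := ⟨_, rfl⟩
  have hle : ∀ x : Fin m → Fin m → ℤ, (if inBox b w (Matrix.of x) then (1 : ENNReal) else 0) ≤
      if x ∈ (Fintype.piFinset F : Finset (Fin m → Fin m → ℤ)) then 1 else 0 := by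
    intro x
    by_cases hx : inBox b w (Matrix.of x)
    · have hm : x ∈ (Fintype.piFinset F : Finset (Fin m → Fin m → ℤ)) := by
        rw [Fintype.mem_piFinset, hF]
        intro i
        exact (hf i).mem_toFinset.2 (hx.2 i)
      rw [if_pos hx, if_pos hm]
    · rw [if_neg hx]
      exact bot_le
  rw [← (Matrix.of (m := Fin m) (n := Fin m) (α := ℤ)).tsum_eq]
  refine (ENNReal.tsum_le_tsum hle).trans ?_
  have h2 : ∑' x : Fin m → Fin m → ℤ,
      (if x ∈ (Fintype.piFinset F : Finset (Fin m → Fin m → ℤ)) then (1 : ENNReal) else 0) =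
      ((Fintype.piFinset F).card : ENNReal) := by
    rw [tsum_eq_sum (s := Fintype.piFinset F)]
    · rw [Finset.sum_ite_of_true (fun a ha => ha), Finset.sum_const, nsmul_eq_mul, mul_one]
    · intro x hx
      rw [if_neg hx]
  rw [h2, Fintype.card_piFinset, ENNReal.ofReal_prod_of_nonneg]
  · push_cast
    refine Finset.prod_le_prod' fun i _ => ?_
    have h3 := (h1 (w i) (hw i).le).2
    rw [Set.ncard_eq_toFinset_card _ (hf i)] at h3
    rw [hF, ← ENNReal.ofReal_natCast]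
    exact ENNReal.ofReal_le_ofReal h3
  · intro i _
    refine Finset.prod_nonneg fun j _ => ?_
    have := hs.pos j
    have := hw i
    positivity

/-- the weight of a matrix -/
theorem W_le (hA : T_ADB) {m : ℕ} {B : ENNReal} (x : ZM m) (hx : x.det ≠ 0) (H : ℝ)
    (G : AddSubgroup (Fin m → ℤ) × AddSubgroup (Fin m → ℤ) → Prop) [DecidablePred G]
    (hG : G = fun p => p.1.index ≠ 0 ∧ p.2.index ≠ 0 ∧ (p.1.index : ℝ) ≤ H ∧
        (p.2.index : ℝ) ≤ H)
    (hW : ∑' p : AddSubgroup (Fin m → ℤ) × AddSubgroup (Fin m → ℤ),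
      (if G p then
        ∏ i ∈ Finset.range m, (((p.1 ⊓ p.2).relIndex (flg m (i + 1)) : ℕ) : ENNReal)⁻¹ else 0) ≤
      B) :
    ∑' p : AddSubgroup (Fin m → ℤ) × AddSubgroup (Fin m → ℤ),
      (if G p then
        ∏ i ∈ Finset.range m, (((p.1 ⊓ p.2).relIndex (Lx x (i + 1)) : ℕ) : ENNReal)⁻¹ else 0) ≤
      B := by
  obtain ⟨e, he⟩ := hA m x hx
  let E : AddSubgroup (Fin m → ℤ) ≃ AddSubgroup (Fin m → ℤ) := (e.mapAddSubgroup).toEquiv
  have hE : ∀ M, E M = M.map (e : (Fin m → ℤ) →+ (Fin m → ℤ)) := fun M => rfl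
  have hinj : Function.Injective (e : (Fin m → ℤ) →+ (Fin m → ℤ)) := e.injective
  have hsurj : Function.Surjective (e : (Fin m → ℤ) →+ (Fin m → ℤ)) := e.surjective
  have hidx : ∀ M : AddSubgroup (Fin m → ℤ),
      (M.map (e : (Fin m → ℤ) →+ (Fin m → ℤ))).index = M.index := by
    intro M
    exact AddSubgroup.index_map_equiv M e
  rw [← (Equiv.prodCongr E E).tsum_eq]
  refine le_trans (le_of_eq ?_) hW
  refine tsum_congr fun p => ?_
  obtain ⟨M, M'⟩ := p
  have hGp : G (Equiv.prodCongr E E (M, M')) ↔ G (M, M') := by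
    rw [hG]
    simp only [Equiv.prodCongr_apply, Prod.map_apply, hE, hidx]
  refine if_congr hGp (Finset.prod_congr rfl fun i hi => ?_) rfl
  have hi' : i + 1 ≤ m := Finset.mem_range.1 hi
  simp only [Equiv.prodCongr_apply, Prod.map_apply, hE]
  rw [← he (i + 1) hi', ← AddSubgroup.map_inf _ _ _ hinj,
    AddSubgroup.relIndex_map_map_of_injective _ _ hinj]

theorem pf_DAV : T_CNT → T_IDX → T_STR → T_ADB → T_WSM → T_DAV := by
  intro hC hI hS hA hW m hm
  classical
  obtain ⟨C1, hC1, hS⟩ := hS m hm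
  obtain ⟨C2, K, hC2, hW⟩ := hW m
  refine ⟨C1 * C2 * (2 * C1) ^ (m * m), K, by positivity, ?_⟩
  intro b n a k hs v hv hmono H hH hdet
  have hlog : 0 ≤ Real.log H := Real.log_nonneg hH
  have hw : ∀ i, 0 < C1 * v i := fun i => mul_pos (by linarith) (hv i)
  obtain ⟨G, hG⟩ : ∃ G : AddSubgroup (Fin m → ℤ) × AddSubgroup (Fin m → ℤ) → Prop,
      G = fun p => p.1.index ≠ 0 ∧ p.2.index ≠ 0 ∧ (p.1.index : ℝ) ≤ H ∧
        (p.2.index : ℝ) ≤ H := ⟨_, rfl⟩
  have s1 : ∑' x : ZM m, (if inBox b v x then (NL x : ENNReal) ^ 2 else 0) ≤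
      ∑' x : ZM m, ∑' p : AddSubgroup (Fin m → ℤ) × AddSubgroup (Fin m → ℤ),
        if G p then (if inBox b v x ∧ ∀ i, x i ∈ p.1 ⊓ p.2 then (1 : ENNReal) else 0) else 0 := by
    refine ENNReal.tsum_le_tsum fun x => ?_
    by_cases hx : inBox b v x
    · rw [if_pos hx, NL_sq hI x hx.1]
      refine ENNReal.tsum_le_tsum fun p => ?_
      by_cases h : (∀ i, x i ∈ p.1) ∧ (∀ i, x i ∈ p.2)
      · have g1 := ((hI m).2.2.2.2 x hx.1).2 p.1 h.1
        have g2 := ((hI m).2.2.2.2 x hx.1).2 p.2 h.2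
        have g3 : ((x.det.natAbs : ℕ) : ℝ) ≤ H := by
          have := hdet x hx
          rwa [Nat.cast_natAbs, Int.cast_abs]
        have g4 : G p := by
          rw [hG]
          exact ⟨g1.1, g2.1, le_trans (by exact_mod_cast g1.2) g3,
            le_trans (by exact_mod_cast g2.2) g3⟩
        have g5 : inBox b v x ∧ ∀ i, x i ∈ p.1 ⊓ p.2 := ⟨hx, fun i => ⟨h.1 i, h.2 i⟩⟩
        rw [if_pos h, if_pos g4, if_pos g5]
      · rw [if_neg h]
        exact bot_le
    · rw [if_neg hx]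
      exact bot_le
  have s2 : ∑' x : ZM m, ∑' p : AddSubgroup (Fin m → ℤ) × AddSubgroup (Fin m → ℤ),
      (if G p then (if inBox b v x ∧ ∀ i, x i ∈ p.1 ⊓ p.2 then (1 : ENNReal) else 0) else 0) ≤
      ENNReal.ofReal C1 * ∑' x : ZM m, (if inBox b (fun i => C1 * v i) x then
        ∑' p : AddSubgroup (Fin m → ℤ) × AddSubgroup (Fin m → ℤ), (if G p then
          ∏ i ∈ Finset.range m, (((p.1 ⊓ p.2).relIndex (Lx x (i + 1)) : ℕ) : ENNReal)⁻¹ else 0)
            else 0) := by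
    rw [ENNReal.tsum_comm]
    have s3 : ∀ p : AddSubgroup (Fin m → ℤ) × AddSubgroup (Fin m → ℤ), ∑' x : ZM m,
        (if G p then (if inBox b v x ∧ ∀ i, x i ∈ p.1 ⊓ p.2 then (1 : ENNReal) else 0) else 0) ≤
        ENNReal.ofReal C1 * ∑' x : ZM m, (if inBox b (fun i => C1 * v i) x then
          (if G p then ∏ i ∈ Finset.range m,
            (((p.1 ⊓ p.2).relIndex (Lx x (i + 1)) : ℕ) : ENNReal)⁻¹ else 0) else 0) := by
      intro p
      by_cases hp : G p
      · simp only [if_pos hp]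
        refine hS b n a k hs v hv hmono (p.1 ⊓ p.2) ?_
        rw [hG] at hp
        have : p.1.FiniteIndex := ⟨hp.1⟩
        have : p.2.FiniteIndex := ⟨hp.2.1⟩
        exact AddSubgroup.FiniteIndex.index_ne_zero
      · simp [hp]
    refine (ENNReal.tsum_le_tsum s3).trans ?_
    rw [ENNReal.tsum_mul_left, ENNReal.tsum_comm]
    refine mul_le_mul_right ?_ _
    refine ENNReal.tsum_le_tsum fun x => ?_
    by_cases hx : inBox b (fun i => C1 * v i) x
    · simp only [if_pos hx]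
      exact le_rfl
    · simp [hx]
  have s4 : ∑' x : ZM m, (if inBox b (fun i => C1 * v i) x then
        ∑' p : AddSubgroup (Fin m → ℤ) × AddSubgroup (Fin m → ℤ), (if G p then
          ∏ i ∈ Finset.range m, (((p.1 ⊓ p.2).relIndex (Lx x (i + 1)) : ℕ) : ENNReal)⁻¹ else 0)
            else 0) ≤ ENNReal.ofReal (C2 * (1 + Real.log H) ^ K) *
      ENNReal.ofReal (∏ i, ∏ j, (1 + 2 * (C1 * v i) / a j)) := by
    refine le_trans ?_ (mul_le_mul_right (box_card hC b n a k hs (fun i => C1 * v i) hw) _)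
    rw [← ENNReal.tsum_mul_left]
    refine ENNReal.tsum_le_tsum fun x => ?_
    by_cases hx : inBox b (fun i => C1 * v i) x
    · rw [if_pos hx, if_pos hx, mul_one]
      refine W_le hA x hx.1 H G hG (le_trans (le_of_eq (tsum_congr fun p => ?_)) (hW H hH))
      by_cases h : G p
      · have h' := h
        rw [hG] at h'
        rw [if_pos h, if_pos h']
      · have h' := h
        rw [hG] at h'
        rw [if_neg h, if_neg h']
    · rw [if_neg hx]
      exact bot_le
  refine s1.trans (s2.trans ((mul_le_mul_right s4 _).trans ?_))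
  have p1 : 0 ≤ C2 * (1 + Real.log H) ^ K := by positivity
  rw [← ENNReal.ofReal_mul p1, ← ENNReal.ofReal_mul (by linarith : 0 ≤ C1)]
  refine ENNReal.ofReal_le_ofReal ?_
  have p2 : ∏ i, ∏ j, (1 + 2 * (C1 * v i) / a j) ≤
      (2 * C1) ^ (m * m) * ∏ i, ∏ j, (1 + v i / a j) := by
    have p3 : ∀ c : ℝ, ∏ i : Fin m, ∏ j : Fin m, c * (1 + v i / a j) =
        c ^ (m * m) * ∏ i, ∏ j, (1 + v i / a j) := by
      intro c
      simp_rw [Finset.prod_mul_distrib, Finset.prod_const, Finset.card_univ, Fintype.card_fin]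
      rw [← pow_mul]
    rw [← p3]
    refine Finset.prod_le_prod (fun i _ => Finset.prod_nonneg fun j _ => ?_) fun i _ =>
      Finset.prod_le_prod (fun j _ => ?_) fun j _ => ?_
    · have := hs.pos j
      have := hw i
      positivity
    · have := hs.pos j
      have := hw i
      positivity
    · have h1 := hs.pos j
      have h2 := hv i
      have h3 : 0 < v i / a j := div_pos h2 h1
      have h4 : 2 * (C1 * v i) / a j = 2 * C1 * (v i / a j) := by ring
      rw [h4]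
      nlinarith
  calc C1 * (C2 * (1 + Real.log H) ^ K * ∏ i, ∏ j, (1 + 2 * (C1 * v i) / a j))
      ≤ C1 * (C2 * (1 + Real.log H) ^ K * ((2 * C1) ^ (m * m) * ∏ i, ∏ j, (1 + v i / a j))) := by
        gcongr
    _ = C1 * C2 * (2 * C1) ^ (m * m) * (1 + Real.log H) ^ K * ∏ i, ∏ j, (1 + v i / a j) := by
        ring

end Pool.Agent.H86.GZ
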