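import Pool.Agent.H34.GZ.Targets2
import Pool.Agent.H34.GM.EG1

/-!
Row RTI of the board gz: right translation of invariant functions over a fundamental domain.
-/

namespace Pool.Agent.H86.GZ

open MeasureTheory Pool.Agent.H34.GM Pool.Agent.H34.GZ

theorem rti_cR_mul {m : ℕ} (α β : ZM m) : cR (α * β) = cR α * cR β := by
  unfold cR
  exact Matrix.map_mul (f := Int.castRingHom ℝ)

theorem rti_cR_one {m : ℕ} : cR (1 : ZM m) = 1 := by
  unfold cR
  exact Matrix.map_one _ Int.cast_zero Int.cast_one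

theorem rti_u1 {m : ℕ} (γ : (ZM m)ˣ) : cR ((γ⁻¹ : (ZM m)ˣ) : ZM m) * cR (γ : ZM m) = 1 := by
  rw [← rti_cR_mul, Units.inv_mul, rti_cR_one]

theorem rti_u2 {m : ℕ} (γ : (ZM m)ˣ) : cR (γ : ZM m) * cR ((γ⁻¹ : (ZM m)ˣ) : ZM m) = 1 := by
  rw [← rti_cR_mul, Units.mul_inv, rti_cR_one]

theorem rti_det {m : ℕ} (γ : (ZM m)ˣ) : |(cR (γ : ZM m)).det| = 1 := by
  have h1 : (cR (γ : ZM m)).det = (((γ : ZM m).det : ℤ) : ℝ) := by
    unfold cR
    exact ((Int.castRingHom ℝ).map_det (γ : ZM m)).symm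
  have h2 : IsUnit (γ : ZM m).det := (Matrix.isUnit_iff_isUnit_det _).1 γ.isUnit
  rw [h1, ← Int.cast_abs, Int.isUnit_iff_abs_eq.1 h2, Int.cast_one]

theorem rti_aN {m : ℕ} (γ : (ZM m)ˣ) : aN (cR (γ : ZM m)) = 1 := by
  unfold aN
  rw [rti_det, Real.one_rpow]

theorem rti_det0 {m : ℕ} (γ : (ZM m)ˣ) : (cR (γ : ZM m)).det ≠ 0 := by
  intro h
  have := rti_det γ
  rw [h, abs_zero] at this
  exact zero_ne_one this

/-- the map `z ↦ a z b` -/
def lr {m : ℕ} (a b : Mat m) (z : V m) : V m := fun i j => (a * mt z * b) i j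

theorem mt_lr {m : ℕ} (a b : Mat m) (z : V m) : mt (lr a b z) = a * mt z * b := by
  ext i j
  rfl

theorem lr_lr {m : ℕ} (a b c d : Mat m) (z : V m) : lr a b (lr c d z) = lr (a * c) (d * b) z := by
  funext i j
  show (a * mt (lr c d z) * b) i j = (a * c * mt z * (d * b)) i j
  rw [mt_lr]
  simp only [Matrix.mul_assoc]

theorem lr_one {m : ℕ} (z : V m) : lr (1 : Mat m) 1 z = z := by
  funext i j
  show ((1 : Mat m) * mt z * 1) i j = z i j
  rw [Matrix.one_mul, Matrix.mul_one]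
  rfl

theorem lr_cont {m : ℕ} (a b : Mat m) : Continuous (lr a b) := by
  have h1 : Continuous fun z : V m => a * mt z * b := by
    have h0 : Continuous fun z : V m => mt z := continuous_id
    exact (continuous_const.matrix_mul h0).matrix_mul continuous_const
  exact h1

theorem lr_int {m : ℕ} (hm1 : 1 ≤ m) (hHAR : T_HAR) (a b : Mat m) (ha : a.det ≠ 0)
    (hb : b.det ≠ 0) (f : V m → ENNReal) (hf : Measurable f) :
    ∫⁻ z, f (lr a b z) ∂(hm m) = ∫⁻ z, f z ∂(hm m) := by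
  have h1 := ((hHAR m hm1).1 a ha f hf).1
  have h2 := ((hHAR m hm1).1 b hb (fun z => f (lr a 1 z))
    (hf.comp (lr_cont a 1).measurable)).2
  have h3 : ∀ z : V m, f (lr a b z) = f (lr a 1 (fun i j => (mt z * b) i j)) := by
    intro z
    congr 1
    funext i j
    show (a * mt z * b) i j = (a * (mt z * b) * 1) i j
    rw [Matrix.mul_one, Matrix.mul_assoc]
  have h4 : ∀ z : V m, f (lr a 1 z) = f (fun i j => (a * mt z) i j) := by
    intro z
    congr 1
    funext i j
    show (a * mt z * 1) i j = (a * mt z) i j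
    rw [Matrix.mul_one]
  simp only [h3]
  rw [h2]
  simp only [h4]
  exact h1

theorem rti_le (m : ℕ) (hm1 : 1 ≤ m) (D : Set (V m)) (hD : DomZ m D) (hHAR : T_HAR)
    (f : V m → ENNReal) (hf : Measurable f)
    (hu : ∀ γ : ZM m, IsUnit γ → ∀ z : V m, (mt z).det ≠ 0 →
      f (fun i j => (cR γ * mt z) i j) = f z)
    (hs : ∀ c : ℝ, 0 < c → ∀ z : V m, (mt z).det ≠ 0 → f (c • z) = f z)
    (w : Mat m) (hw : w.det ≠ 0) :
    ∫⁻ z in D, f (fun i j => (mt z * w) i j) ∂(hm m) ≤ ∫⁻ z in D, f z ∂(hm m) := by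
  have hcZ : Countable (ZM m) := inferInstanceAs (Countable (Fin m → Fin m → ℤ))
  have hcU : Countable (ZM m)ˣ := Function.Injective.countable (f := fun γ : (ZM m)ˣ => (γ : ZM m))
    (fun _ _ h => Units.ext h)
  have hdet : ∀ z : V m, 1 ≤ aN (mt z) → (mt z).det ≠ 0 := by
    intro z hz h0
    rw [eg1_zero hm1 h0] at hz
    linarith
  let A : ℤ × (ZM m)ˣ → Mat m := fun p => Real.exp (-(p.1 : ℝ)) • cR (p.2 : ZM m)
  let B : ℤ × (ZM m)ˣ → Mat m := fun p => Real.exp (p.1 : ℝ) • cR ((p.2⁻¹ : (ZM m)ˣ) : ZM m)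
  have hAB : ∀ p, A p * B p = 1 := by
    intro p
    show (Real.exp (-(p.1 : ℝ)) • cR (p.2 : ZM m)) *
      (Real.exp (p.1 : ℝ) • cR ((p.2⁻¹ : (ZM m)ˣ) : ZM m)) = 1
    rw [Matrix.smul_mul, Matrix.mul_smul, smul_smul, rti_u2, ← Real.exp_add, neg_add_cancel,
      Real.exp_zero, one_smul]
  have hBA : ∀ p, B p * A p = 1 := by
    intro p
    show (Real.exp (p.1 : ℝ) • cR ((p.2⁻¹ : (ZM m)ˣ) : ZM m)) *
      (Real.exp (-(p.1 : ℝ)) • cR (p.2 : ZM m)) = 1
    rw [Matrix.smul_mul, Matrix.mul_smul, smul_smul, rti_u1, ← Real.exp_add, add_neg_cancel,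
      Real.exp_zero, one_smul]
  have hAd : ∀ p, (A p).det ≠ 0 := by
    intro p h
    have h1 := congrArg Matrix.det (hAB p)
    rw [Matrix.det_mul, h, zero_mul, Matrix.det_one] at h1
    exact zero_ne_one h1
  have hww : w * w⁻¹ = 1 := Matrix.mul_nonsing_inv _ (isUnit_iff_ne_zero.2 hw)
  have hww2 : w⁻¹ * w = 1 := Matrix.nonsing_inv_mul _ (isUnit_iff_ne_zero.2 hw)
  let S : ℤ × (ZM m)ˣ → Set (V m) := fun p => {z | z ∈ D ∧ lr (A p) w z ∈ D}
  let E : ℤ × (ZM m)ˣ → Set (V m) := fun p => {u | u ∈ D ∧ lr (B p) w⁻¹ u ∈ D}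
  have hSm : ∀ p, MeasurableSet (S p) := fun p =>
    hD.meas.inter ((lr_cont (A p) w).measurable hD.meas)
  have hEm : ∀ p, MeasurableSet (E p) := fun p =>
    hD.meas.inter ((lr_cont (B p) w⁻¹).measurable hD.meas)
  have hfw : Measurable fun z : V m => f (fun i j => (mt z * w) i j) := by
    have h1 : (fun z : V m => f (fun i j => (mt z * w) i j)) = fun z => f (lr 1 w z) := by
      funext z
      congr 1
      funext i j
      show (mt z * w) i j = (1 * mt z * w) i j
      rw [Matrix.one_mul]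
    rw [h1]
    exact hf.comp (lr_cont 1 w).measurable
  -- invariance of `f`
  have hinv : ∀ (p : ℤ × (ZM m)ˣ) (z : V m), (mt z).det ≠ 0 →
      f (lr (A p) w z) = f (fun i j => (mt z * w) i j) := by
    intro p z hz
    have hz1 : (mt (fun i j => (mt z * w) i j : V m)).det ≠ 0 := by
      have : (mt (fun i j => (mt z * w) i j : V m)) = mt z * w := by
        ext i j
        rfl
      rw [this, Matrix.det_mul]
      exact mul_ne_zero hz hw
    have h2 := hu (p.2 : ZM m) p.2.isUnit _ hz1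
    have hz2 : (mt (fun i j => (cR (p.2 : ZM m) * mt (fun i j => (mt z * w) i j : V m)) i j :
        V m)).det ≠ 0 := by
      have : (mt (fun i j => (cR (p.2 : ZM m) * mt (fun i j => (mt z * w) i j : V m)) i j :
        V m)) = cR (p.2 : ZM m) * mt (fun i j => (mt z * w) i j : V m) := by
        ext i j
        rfl
      rw [this, Matrix.det_mul]
      exact mul_ne_zero (rti_det0 _) hz1
    have h3 := hs (Real.exp (-(p.1 : ℝ))) (Real.exp_pos _) _ hz2
    rw [← h2, ← h3]
    congr 1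
    funext i j
    show ((Real.exp (-(p.1 : ℝ)) • cR (p.2 : ZM m)) * mt z * w) i j =
      Real.exp (-(p.1 : ℝ)) * (cR (p.2 : ZM m) * (mt z * w)) i j
    rw [Matrix.smul_mul, Matrix.smul_mul, Matrix.mul_assoc]
    rfl
  -- the three steps
  have s1 : ∫⁻ z in D, f (fun i j => (mt z * w) i j) ∂(hm m) ≤
      ∑' p, ∫⁻ z, (S p).indicator (fun z => f (lr (A p) w z)) z ∂(hm m) := by
    have hFm : ∀ p, Measurable (fun z => (S p).indicator (fun z => f (lr (A p) w z)) z) := by
      intro p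
      have h0 : Measurable (fun z => f (lr (A p) w z)) := hf.comp (lr_cont (A p) w).measurable
      exact h0.indicator (hSm p)
    rw [← lintegral_tsum (fun p => (hFm p).aemeasurable), ← lintegral_indicator hD.meas]
    refine lintegral_mono fun z => ?_
    by_cases hz : z ∈ D
    · rw [Set.indicator_of_mem hz]
      have hz1 := hD.shell z hz
      have hzd := hdet z hz1.1
      have hx : 0 < aN (mt z * w) := by
        apply eg1_pos
        rw [Matrix.det_mul]
        exact mul_ne_zero hzd hw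
      have hk1 := Int.floor_le (Real.log (aN (mt z * w)))
      have hk2 := Int.lt_floor_add_one (Real.log (aN (mt z * w)))
      set k : ℤ := ⌊Real.log (aN (mt z * w))⌋ with hk
      let u : V m := lr (Real.exp (-(k : ℝ)) • (1 : Mat m)) w z
      have hu1 : mt u = Real.exp (-(k : ℝ)) • (mt z * w) := by
        show mt (lr (Real.exp (-(k : ℝ)) • (1 : Mat m)) w z) = _
        rw [mt_lr, Matrix.smul_mul, Matrix.smul_mul, Matrix.one_mul]
      have hu2 : aN (mt u) = Real.exp (Real.log (aN (mt z * w)) - k) := by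
        rw [hu1, eg1_smul hm1 (Real.exp_pos _), Real.exp_sub, Real.exp_neg, Real.exp_log hx]
        ring
      have hu3 : 1 ≤ aN (mt u) := by
        rw [hu2]
        exact Real.one_le_exp (by linarith)
      have hu4 : aN (mt u) < Real.exp 1 := by
        rw [hu2]
        exact Real.exp_lt_exp.2 (by linarith)
      obtain ⟨γ, ⟨hγ1, hγ2⟩, -⟩ := hD.fund u hu3 hu4
      obtain ⟨g, rfl⟩ := hγ1
      have h5 : lr (A (k, g)) w z ∈ D := by
        have h6 : lr (A (k, g)) w z = ((fun i j => (cR (g : ZM m) * mt u) i j) : V m) := by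
          funext i j
          show ((Real.exp (-(k : ℝ)) • cR (g : ZM m)) * mt z * w) i j = (cR (g : ZM m) * mt u) i j
          rw [hu1, Matrix.smul_mul, Matrix.smul_mul, Matrix.mul_smul, Matrix.mul_assoc]
        rw [h6]
        exact hγ2
      refine le_trans (le_of_eq ?_) (ENNReal.le_tsum (k, g))
      have h7 : z ∈ S (k, g) := ⟨hz, h5⟩
      rw [Set.indicator_of_mem h7]
      exact (hinv (k, g) z hzd).symm
    · rw [Set.indicator_of_notMem hz]
      exact bot_le
  have s2 : ∀ p, ∫⁻ z, (S p).indicator (fun z => f (lr (A p) w z)) z ∂(hm m) =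
      ∫⁻ z, (E p).indicator f z ∂(hm m) := by
    intro p
    rw [← lr_int hm1 hHAR (A p) w (hAd p) hw _ (hf.indicator (hEm p))]
    refine lintegral_congr fun z => ?_
    have h1 : lr (B p) w⁻¹ (lr (A p) w z) = z := by
      rw [lr_lr, hBA, hww, lr_one]
    by_cases hz : z ∈ S p
    · have h2 : lr (A p) w z ∈ E p := ⟨hz.2, by rw [h1]; exact hz.1⟩
      rw [Set.indicator_of_mem hz, Set.indicator_of_mem h2]
    · have h2 : lr (A p) w z ∉ E p := by
        intro h3
        apply hz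
        refine ⟨?_, h3.1⟩
        have h4 := h3.2
        rw [h1] at h4
        exact h4
      rw [Set.indicator_of_notMem hz, Set.indicator_of_notMem h2]
  have hBN : ∀ (p : ℤ × (ZM m)ˣ) (u : V m), u ∈ E p →
      (0 ≤ (p.1 : ℝ) + Real.log (aN (mt u * w⁻¹)) ∧
        (p.1 : ℝ) + Real.log (aN (mt u * w⁻¹)) < 1) ∧
      (((fun i j => (cR ((p.2⁻¹ : (ZM m)ˣ) : ZM m) *
        mt (fun i j => (Real.exp (p.1 : ℝ) • (mt u * w⁻¹)) i j : V m)) i j) : V m) ∈ D) := by
    intro p u hu'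
    have h1 := hD.shell _ hu'.2
    have hud := hdet u (hD.shell _ hu'.1).1
    have hx : 0 < aN (mt u * w⁻¹) := by
      apply eg1_pos
      rw [Matrix.det_mul]
      refine mul_ne_zero hud ?_
      intro h0
      have h2 := congrArg Matrix.det hww
      rw [Matrix.det_mul, h0, mul_zero, Matrix.det_one] at h2
      exact zero_ne_one h2
    have h3 : aN (mt (lr (B p) w⁻¹ u)) =
        Real.exp ((p.1 : ℝ) + Real.log (aN (mt u * w⁻¹))) := by
      rw [mt_lr, Matrix.mul_assoc, eg1_mul]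
      have h4 : aN (B p) = Real.exp (p.1 : ℝ) := by
        show aN (Real.exp (p.1 : ℝ) • cR ((p.2⁻¹ : (ZM m)ˣ) : ZM m)) = _
        rw [eg1_smul hm1 (Real.exp_pos _), rti_aN, mul_one]
      rw [h4, Real.exp_add, Real.exp_log hx]
    rw [h3] at h1
    refine ⟨⟨?_, ?_⟩, ?_⟩
    · by_contra hcon
      push Not at hcon
      have := Real.exp_lt_exp.2 hcon
      rw [Real.exp_zero] at this
      linarith [h1.1]
    · exact Real.exp_lt_exp.1 h1.2
    · have h5 := hu'.2
      have h6 : lr (B p) w⁻¹ u = ((fun i j => (cR ((p.2⁻¹ : (ZM m)ˣ) : ZM m) *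
        mt (fun i j => (Real.exp (p.1 : ℝ) • (mt u * w⁻¹)) i j : V m)) i j) : V m) := by
        funext i j
        show ((Real.exp (p.1 : ℝ) • cR ((p.2⁻¹ : (ZM m)ˣ) : ZM m)) * mt u * w⁻¹) i j =
          (cR ((p.2⁻¹ : (ZM m)ˣ) : ZM m) * (Real.exp (p.1 : ℝ) • (mt u * w⁻¹))) i j
        rw [Matrix.smul_mul, Matrix.smul_mul, Matrix.mul_smul, Matrix.mul_assoc]
      rw [h6] at h5
      exact h5
  have huniq : ∀ (p p' : ℤ × (ZM m)ˣ) (u : V m), u ∈ E p → u ∈ E p' → p = p' := by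
    intro p p' u h1 h2
    obtain ⟨⟨a1, a2⟩, a3⟩ := hBN p u h1
    obtain ⟨⟨b1, b2⟩, b3⟩ := hBN p' u h2
    have hk : p.1 = p'.1 := by
      have h3 : (p.1 : ℝ) < p'.1 + 1 := by linarith
      have h4 : (p'.1 : ℝ) < p.1 + 1 := by linarith
      have h5 : p.1 < p'.1 + 1 := by exact_mod_cast h3
      have h6 : p'.1 < p.1 + 1 := by exact_mod_cast h4
      omega
    rw [← hk] at b3
    have hmu : mt (fun i j => (Real.exp (p.1 : ℝ) • (mt u * w⁻¹)) i j : V m) =
        Real.exp (p.1 : ℝ) • (mt u * w⁻¹) := by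
      ext i j
      rfl
    have hsh := hD.shell _ a3
    have h7 : aN (mt ((fun i j => (cR ((p.2⁻¹ : (ZM m)ˣ) : ZM m) *
        mt (fun i j => (Real.exp (p.1 : ℝ) • (mt u * w⁻¹)) i j : V m)) i j) : V m)) =
        aN (mt (fun i j => (Real.exp (p.1 : ℝ) • (mt u * w⁻¹)) i j : V m)) := by
      have h8 : mt ((fun i j => (cR ((p.2⁻¹ : (ZM m)ˣ) : ZM m) *
        mt (fun i j => (Real.exp (p.1 : ℝ) • (mt u * w⁻¹)) i j : V m)) i j) : V m) =
        cR ((p.2⁻¹ : (ZM m)ˣ) : ZM m) *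
        mt (fun i j => (Real.exp (p.1 : ℝ) • (mt u * w⁻¹)) i j : V m) := by
        ext i j
        rfl
      rw [h8, eg1_mul, rti_aN, one_mul]
    rw [h7] at hsh
    have h9 := (hD.fund _ hsh.1 hsh.2).unique ⟨(p.2⁻¹).isUnit, a3⟩ ⟨(p'.2⁻¹).isUnit, b3⟩
    have h10 : p.2⁻¹ = p'.2⁻¹ := Units.ext h9
    exact Prod.ext hk (inv_injective h10)
  have s3 : ∑' p, ∫⁻ z, (E p).indicator f z ∂(hm m) ≤ ∫⁻ z in D, f z ∂(hm m) := by
    rw [← lintegral_tsum (fun p => (hf.indicator (hEm p)).aemeasurable),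
      ← lintegral_indicator hD.meas]
    refine lintegral_mono fun u => ?_
    by_cases hex : ∃ p, u ∈ E p
    · obtain ⟨p, hp⟩ := hex
      rw [tsum_eq_single p, Set.indicator_of_mem hp, Set.indicator_of_mem hp.1]
      intro p' hp'
      rw [Set.indicator_of_notMem]
      intro h
      exact hp' (huniq p' p u h hp)
    · have h0 : ∀ p, (E p).indicator f u = 0 := by
        intro p
        rw [Set.indicator_of_notMem]
        intro h
        exact hex ⟨p, h⟩
      simp only [h0, tsum_zero]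
      exact bot_le
  calc ∫⁻ z in D, f (fun i j => (mt z * w) i j) ∂(hm m)
      ≤ ∑' p, ∫⁻ z, (S p).indicator (fun z => f (lr (A p) w z)) z ∂(hm m) := s1
    _ = ∑' p, ∫⁻ z, (E p).indicator f z ∂(hm m) := by simp only [s2]
    _ ≤ ∫⁻ z in D, f z ∂(hm m) := s3

theorem pf_RTI : T_HAR → T_RTI := by
  intro hHAR m hm1 D hD f hf hu hs w hw
  apply le_antisymm (rti_le m hm1 D hD hHAR f hf hu hs w hw)
  have hww : w * w⁻¹ = 1 := Matrix.mul_nonsing_inv _ (isUnit_iff_ne_zero.2 hw)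
  have hw' : (w⁻¹).det ≠ 0 := by
    intro h0
    have h2 := congrArg Matrix.det hww
    rw [Matrix.det_mul, h0, mul_zero, Matrix.det_one] at h2
    exact zero_ne_one h2
  have hww2 : w⁻¹ * w = 1 := Matrix.nonsing_inv_mul _ (isUnit_iff_ne_zero.2 hw)
  have hfe : ∀ z : V m, (fun i j => (mt z * w) i j : V m) = lr 1 w z := by
    intro z
    funext i j
    show (mt z * w) i j = (1 * mt z * w) i j
    rw [Matrix.one_mul]
  have h1 := rti_le m hm1 D hD hHAR (fun z => f (lr 1 w z))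
    (hf.comp (lr_cont 1 w).measurable) ?_ ?_ w⁻¹ hw'
  · have h2 : ∀ z : V m, lr 1 w (fun i j => (mt z * w⁻¹) i j : V m) = z := by
      intro z
      funext i j
      show (1 * (mt z * w⁻¹) * w) i j = z i j
      rw [Matrix.one_mul, Matrix.mul_assoc, hww2, Matrix.mul_one]
      rfl
    simp only [h2] at h1
    simp only [hfe]
    exact h1
  · intro γ hγ z hz
    have hz1 : (mt (lr 1 w z)).det ≠ 0 := by
      rw [mt_lr, Matrix.one_mul, Matrix.det_mul]
      exact mul_ne_zero hz hw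
    show f (lr 1 w (fun i j => (cR γ * mt z) i j)) = f (lr 1 w z)
    rw [← hu γ hγ (lr 1 w z) hz1]
    congr 1
    funext i j
    show (1 * (cR γ * mt z) * w) i j = (cR γ * mt (lr 1 w z)) i j
    rw [mt_lr, Matrix.one_mul, Matrix.one_mul, Matrix.mul_assoc]
  · intro c hc z hz
    have hz1 : (mt (lr 1 w z)).det ≠ 0 := by
      rw [mt_lr, Matrix.one_mul, Matrix.det_mul]
      exact mul_ne_zero hz hw
    show f (lr 1 w (c • z)) = f (lr 1 w z)
    rw [← hs c hc (lr 1 w z) hz1]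
    congr 1
    funext i j
    have h3 : mt (c • z) = c • mt z := by
      ext i j
      rfl
    show (1 * mt (c • z) * w) i j = c * (1 * mt z * w) i j
    rw [h3, Matrix.mul_smul, Matrix.smul_mul]
    rfl

end Pool.Agent.H86.GZ
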